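import Mathlib
import Pool.Agent.Helper12.LW.Defs
import Pool.Agent.Helper15.SF.KuhnV

/-! M3: Kuhn–Sperner for an arbitrary superbase. -/

set_option autoImplicit false

namespace Pool.Agent.Helper15.LW

open Matrix Pool.Agent.Helper12.LW Pool.Agent.Helper84.FL Pool.Agent.Helper15.SF

theorem toR_labE_LW (f : Fin 4 → Fin 3 → ℤ) (z : Fin 3 → ℤ) :
    toR (labE f z) = ∑ i : Fin 3, (z i : ℝ) • toR (f i.castSucc) := by
  funext k
  unfold labE toR
  rw [Finset.sum_apply, Finset.sum_apply, Fin.sum_univ_castSucc]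
  have h4 : (Fin.last 3 : Fin 4) = 3 := rfl
  simp only [labC_castSucc, h4, labC_three, Pi.smul_apply, smul_eq_mul, zero_mul, add_zero]
  push_cast
  rfl

theorem chainP_eq (f : Fin 4 → Fin 3 → ℤ) (z : Fin 3 → ℤ) (π : Equiv.Perm (Fin 3)) (k : Fin 4) :
    chainP f (labE f z) π k = labE f (kv z π k) := by
  have hk0 : kv z π 0 = z := by
    funext i
    simp [kv]
  have h1 := labE_kv f z π 0 (by norm_num)
  have h2 := labE_kv f z π 1 (by norm_num)
  have h3 := labE_kv f z π 2 (by norm_num)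
  rw [hk0] at h1
  unfold chainP
  rw [Fin.sum_univ_three]
  fin_cases k
  · show labE f z + _ = labE f (kv z π 0)
    rw [hk0]
    simp
  · show labE f z + _ = labE f (kv z π 1)
    rw [h1]
    simp
  · show labE f z + _ = labE f (kv z π 2)
    rw [h2, h1]
    simp [add_assoc]
  · show labE f z + _ = labE f (kv z π 3)
    rw [h3, h2, h1]
    simp [add_assoc]

/-- the dual basis -/
theorem dual_real (f : Fin 4 → Fin 3 → ℤ) (hdet : IsUnit (Matrix.of ![f 0, f 1, f 2]).det) :
    ∃ d : Fin 3 → Fin 3 → ℝ, (∀ i l : Fin 3, d i ⬝ᵥ toR (f l.castSucc) = if i = l then 1 else 0) ∧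
      ∀ u : Fin 3 → ℝ, (∀ i : Fin 3, u ⬝ᵥ toR (f i.castSucc) = 0) → u = 0 := by
  obtain ⟨B, hB⟩ : ∃ B : Matrix (Fin 3) (Fin 3) ℝ,
      B = (Matrix.of ![f 0, f 1, f 2]).map (Int.cast : ℤ → ℝ) := ⟨_, rfl⟩
  have hrow : ∀ l : Fin 3, B l = toR (f l.castSucc) := by
    intro l
    rw [hB]
    funext k
    fin_cases l <;> rfl
  have hdetB : IsUnit B.det := by
    have h1 : B.det = (((Matrix.of ![f 0, f 1, f 2]).det : ℤ) : ℝ) := by
      rw [hB]
      have := (Int.castRingHom ℝ).map_det (Matrix.of ![f 0, f 1, f 2])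
      simpa using this.symm
    rw [h1]
    exact hdet.map (Int.castRingHom ℝ)
  have hBB : B * B⁻¹ = 1 := Matrix.mul_nonsing_inv B hdetB
  have hBB' : B⁻¹ * B = 1 := Matrix.nonsing_inv_mul B hdetB
  refine ⟨fun i k => B⁻¹ k i, ?_, ?_⟩
  · intro i l
    have h1 := congrFun (congrFun hBB l) i
    rw [Matrix.mul_apply, Matrix.one_apply] at h1
    rw [← hrow l]
    unfold dotProduct
    have h2 : ∑ k, B⁻¹ k i * B l k = ∑ k, B l k * B⁻¹ k i :=
      Finset.sum_congr rfl (fun k _ => mul_comm _ _)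
    rw [h2, h1]
    simp only [eq_comm]
  · intro u hu
    have h1 : B *ᵥ u = 0 := by
      funext l
      have := hu l
      rw [← hrow l, dotProduct_comm] at this
      exact this
    have h2 : B⁻¹ *ᵥ (B *ᵥ u) = u := by rw [Matrix.mulVec_mulVec, hBB', Matrix.one_mulVec]
    rw [← h2, h1, Matrix.mulVec_zero]

/-- M3 (Kuhn-Sperner) for an arbitrary superbase. -/
theorem sperner (K : Set (Fin 3 → ℝ)) (hKL : LFree K) (f : Fin 4 → Fin 3 → ℤ) (hf : ∑ l, f l = 0)
    (hdet : IsUnit (Matrix.of ![f 0, f 1, f 2]).det) :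
    ∃ (z : Fin 3 → ℤ) (σ : Equiv.Perm (Fin 3)) (v : Fin 4 → Fin 3 → ℝ), Sep4 K (chainP f z σ) v := by
  have hK := hKL.compact
  have hcv := hKL.convex
  have hint := hKL.interior_nonempty
  have hfree := hKL.free
  classical
  -- separation
  have hsep : ∀ z : Fin 3 → ℤ, ∃ n : Fin 3 → ℝ, n ≠ 0 ∧ ∀ x ∈ K, n ⬝ᵥ x ≤ n ⬝ᵥ toR z := by
    intro z
    obtain ⟨φ, hφ⟩ := geometric_hahn_banach_open_point hcv.interior isOpen_interior (hfree z)
    have hφn : ∀ x : Fin 3 → ℝ, φ x = (fun k => φ (Pi.single k 1)) ⬝ᵥ x := by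
      intro x
      have h1 := φ.toLinearMap.pi_apply_eq_sum_univ x
      have h2 : φ x = ∑ i, x i • φ (fun j => if i = j then (1 : ℝ) else 0) := h1
      rw [h2]
      simp only [dotProduct, smul_eq_mul]
      refine Finset.sum_congr rfl (fun i _ => ?_)
      have h3 : (fun j => if i = j then (1 : ℝ) else 0) = Pi.single i 1 := by
        funext j
        rw [Pi.single_apply]
        simp only [eq_comm]
      rw [h3, mul_comm]
    refine ⟨fun k => φ (Pi.single k 1), ?_, ?_⟩
    · intro h0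
      obtain ⟨x0, hx0⟩ := hint
      have h1 := hφ x0 hx0
      rw [hφn, hφn, h0] at h1
      simp at h1
    · intro x hx
      rw [← hφn, ← hφn]
      have hcl : x ∈ closure (interior K) := by
        rw [hcv.closure_interior_eq_closure_of_nonempty_interior hint]
        exact subset_closure hx
      have hclosed : IsClosed {y : Fin 3 → ℝ | φ y ≤ φ (toR z)} :=
        isClosed_le φ.continuous continuous_const
      exact closure_minimal (fun y hy => (hφ y hy).le) hclosed hcl
  -- the bound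
  obtain ⟨R0, hR0⟩ := (Metric.isBounded_iff_subset_closedBall 0).mp hK.isBounded
  obtain ⟨d, hd, horth⟩ := dual_real f hdet
  obtain ⟨M, hM⟩ := exists_nat_ge (1 + ∑ i : Fin 3, ∑ k : Fin 3, |d i k| * |R0|)
  have hC0 : 0 ≤ ∑ i : Fin 3, ∑ k : Fin 3, |d i k| * |R0| := by positivity
  have hM1 : (1 : ℝ) ≤ M := by linarith
  have hMpos : 0 < M := by
    have : (1 : ℕ) ≤ M := by exact_mod_cast hM1
    omega
  have hdx : ∀ x ∈ K, ∀ i, |d i ⬝ᵥ x| ≤ ∑ k : Fin 3, |d i k| * |R0| := by
    intro x hx i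
    have h1 : ‖x‖ ≤ R0 := by
      have := hR0 hx
      rwa [mem_closedBall_zero_iff] at this
    unfold dotProduct
    refine (Finset.abs_sum_le_sum_abs _ _).trans (Finset.sum_le_sum (fun k _ => ?_))
    rw [abs_mul]
    refine mul_le_mul_of_nonneg_left ?_ (abs_nonneg _)
    have h2 := norm_le_pi_norm x k
    rw [Real.norm_eq_abs] at h2
    exact (h2.trans h1).trans (le_abs_self R0)
  -- normals
  have hnor : ∀ z : Fin 3 → ℤ, ∃ n : Fin 3 → ℝ, (∀ i, |z i| ≤ M) → (n ≠ 0 ∧
      (∀ x ∈ K, n ⬝ᵥ x ≤ n ⬝ᵥ toR (labE f z)) ∧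
      (∀ i, z i = M → 0 ≤ n ⬝ᵥ toR (f i.castSucc)) ∧
      (∀ i, z i = -M → n ⬝ᵥ toR (f i.castSucc) ≤ 0)) := by
    intro z
    by_cases hz : ∃ i, z i = M ∨ z i = -M
    · let ε : Fin 3 → ℝ := fun i => if z i = M then 1 else if z i = -M then -1 else 0
      have hε1 : ∀ i, |ε i| ≤ 1 := by
        intro i
        simp only [ε]
        split_ifs <;> norm_num
      have hεz : ∀ i, 0 ≤ ε i * (z i : ℝ) := by
        intro i
        simp only [ε]
        split_ifs with h1 h2
        · rw [h1]; push_cast; linarith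
        · rw [h2]; push_cast; linarith
        · simp
      have hn : ∀ l : Fin 3, (∑ i, ε i • d i) ⬝ᵥ toR (f l.castSucc) = ε l := by
        intro l
        rw [sum_dotProduct]
        simp only [smul_dotProduct, hd, smul_eq_mul, mul_ite, mul_one, mul_zero,
          Finset.sum_ite_eq', Finset.mem_univ, if_true]
      refine ⟨∑ i, ε i • d i, fun hzM => ⟨?_, ?_, ?_, ?_⟩⟩
      · intro h0
        obtain ⟨i, hi⟩ := hz
        have h1 := hn i
        rw [h0, zero_dotProduct] at h1
        simp only [ε] at h1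
        rcases hi with hi | hi
        · rw [if_pos hi] at h1
          norm_num at h1
        · have h2 : ¬ z i = M := by omega
          rw [if_neg h2, if_pos hi] at h1
          norm_num at h1
      · intro x hx
        have h1 : (∑ i, ε i • d i) ⬝ᵥ x ≤ ∑ i : Fin 3, ∑ k : Fin 3, |d i k| * |R0| := by
          rw [sum_dotProduct]
          refine Finset.sum_le_sum (fun i _ => ?_)
          rw [smul_dotProduct, smul_eq_mul]
          refine (le_abs_self _).trans ?_
          rw [abs_mul]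
          calc |ε i| * |d i ⬝ᵥ x| ≤ 1 * |d i ⬝ᵥ x| :=
                mul_le_mul_of_nonneg_right (hε1 i) (abs_nonneg _)
            _ ≤ _ := by rw [one_mul]; exact hdx x hx i
        have h2 : (M : ℝ) ≤ (∑ i, ε i • d i) ⬝ᵥ toR (labE f z) := by
          rw [toR_labE_LW, dotProduct_sum]
          simp only [dotProduct_smul, smul_eq_mul, hn]
          obtain ⟨i, hi⟩ := hz
          have h3 : (M : ℝ) ≤ (z i : ℝ) * ε i := by
            simp only [ε]
            rcases hi with hi | hi
            · rw [if_pos hi, hi]; push_cast; linarith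
            · have h2 : ¬ z i = M := by omega
              rw [if_neg h2, if_pos hi, hi]; push_cast; linarith
          refine h3.trans ?_
          exact Finset.single_le_sum (f := fun i => (z i : ℝ) * ε i)
            (fun j _ => by rw [mul_comm]; exact hεz j) (Finset.mem_univ i)
        linarith
      · intro i hi
        rw [hn]
        simp only [ε]
        rw [if_pos hi]
        norm_num
      · intro i hi
        rw [hn]
        simp only [ε]
        have h2 : ¬ z i = M := by omega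
        rw [if_neg h2, if_pos hi]
        norm_num
    · push Not at hz
      obtain ⟨n, hn, hx⟩ := hsep (labE f z)
      exact ⟨n, fun _ => ⟨hn, hx, fun i hi => absurd hi (hz i).1,
        fun i hi => absurd hi (hz i).2⟩⟩
  choose n hn using hnor
  obtain ⟨z, π, w, hw0, ⟨k0, hk0⟩, hwM, hsum⟩ := kuhn_vec M
    (fun z i => n z ⬝ᵥ toR (f i.castSucc))
    (fun z hz i hi => (hn z hz).2.2.1 i hi) (fun z hz i hi => (hn z hz).2.2.2 i hi)
  let p : Fin 4 → Fin 3 → ℤ := fun k => labE f (kv z π k)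
  -- the vectors
  let v0 : Fin 4 → Fin 3 → ℝ := fun k => w k • n (kv z π k)
  have hv0sum : ∑ k, v0 k = 0 := by
    apply horth
    intro i
    rw [sum_dotProduct]
    simp only [v0, smul_dotProduct, smul_eq_mul]
    exact hsum i
  have hv0K : ∀ k, ∀ x ∈ K, v0 k ⬝ᵥ x ≤ v0 k ⬝ᵥ toR (p k) := by
    intro k x hx
    simp only [v0, smul_dotProduct, smul_eq_mul]
    rcases (hw0 k).lt_or_eq with hk | hk
    · exact mul_le_mul_of_nonneg_left ((hn _ (hwM k hk)).2.1 x hx) hk.le
    · rw [← hk, zero_mul, zero_mul]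
  obtain ⟨x0, hx0⟩ := hint
  have hx0K : x0 ∈ K := interior_subset hx0
  have hstrict : v0 k0 ⬝ᵥ x0 < v0 k0 ⬝ᵥ toR (p k0) := by
    have hnk := hn _ (hwM k0 hk0)
    have hvne : v0 k0 ≠ 0 := smul_ne_zero hk0.ne' hnk.1
    have hvv : 0 < v0 k0 ⬝ᵥ v0 k0 := by
      rcases (dotProduct_self_nonneg_three (v0 k0)).lt_or_eq with h | h
      · exact h
      · exact absurd (dotProduct_self_eq_zero.mp h.symm) hvne
    have hcont : Filter.Tendsto (fun t : ℝ => x0 + t • v0 k0) (nhds 0) (nhds x0) := by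
      have : Continuous (fun t : ℝ => x0 + t • v0 k0) := by fun_prop
      have h := this.tendsto 0
      simpa using h
    have hev : ∀ᶠ t : ℝ in nhds 0, x0 + t • v0 k0 ∈ K :=
      hcont.eventually (mem_interior_iff_mem_nhds.mp hx0)
    obtain ⟨δ, hδ, hball⟩ := Metric.eventually_nhds_iff.mp hev
    have h1 : x0 + (δ / 2) • v0 k0 ∈ K := by
      apply hball
      rw [Real.dist_eq, sub_zero, abs_of_pos (by linarith)]
      linarith
    have h2 := hv0K k0 _ h1
    rw [dotProduct_add, dotProduct_smul, smul_eq_mul] at h2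
    nlinarith [mul_pos (half_pos hδ) hvv]
  have hR : 0 < ∑ k, v0 k ⬝ᵥ toR (p k) := by
    have h1 : ∑ k, v0 k ⬝ᵥ x0 = 0 := by
      rw [← sum_dotProduct, hv0sum, zero_dotProduct]
    have h2 : ∑ k, v0 k ⬝ᵥ x0 < ∑ k, v0 k ⬝ᵥ toR (p k) :=
      Finset.sum_lt_sum (fun k _ => hv0K k x0 hx0K) ⟨k0, Finset.mem_univ _, hstrict⟩
    linarith
  set R := ∑ k, v0 k ⬝ᵥ toR (p k) with hRdef
  refine ⟨labE f z, π, fun k => R⁻¹ • v0 k, ⟨?_, ?_, ?_⟩⟩
  · rw [← Finset.smul_sum, hv0sum, smul_zero]
  · simp only [smul_dotProduct, smul_eq_mul, chainP_eq]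
    rw [← Finset.mul_sum, ← hRdef, inv_mul_cancel₀ hR.ne']
  · intro k x hx
    simp only [smul_dotProduct, smul_eq_mul, chainP_eq]
    exact mul_le_mul_of_nonneg_left (hv0K k x hx) (inv_nonneg.mpr hR.le)

end Pool.Agent.Helper15.LW
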